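import Pool.Agent.H82.RP.TB

/-!
# Board rpw_modules, row QHH: orthogonality of the weights
-/

set_option autoImplicit false

open Finset Real ArithmeticFunction
open scoped Nat ArithmeticFunction.Moebius

namespace Pool.Agent.H49.RP

open Pool.Agent.H31.MP (RS Rgh Pz Me Om Lam1 QF1)
open Pool.Agent.H82.RP

/-- extension of a tuple on `H` by ones -/
noncomputable def ex1 {m : ℕ} (H : Finset (Fin m)) (r : Fin H.card → ℕ) (i : Fin m) : ℕ :=
  if h : i ∈ H then r (H.equivFin ⟨i, h⟩) else 1

theorem ex1_mem {m : ℕ} (H : Finset (Fin m)) (r : Fin H.card → ℕ) (i : H) :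
    ex1 H r i = r (H.equivFin i) := by
  unfold ex1
  rw [dif_pos i.2]

theorem ex1_notMem {m : ℕ} (H : Finset (Fin m)) (r : Fin H.card → ℕ) (i : Fin m) (h : i ∉ H) :
    ex1 H r i = 1 := by
  unfold ex1
  rw [dif_neg h]

theorem prod_H {M : Type} [CommMonoid M] {m : ℕ} (H : Finset (Fin m)) (r : Fin H.card → ℕ)
    (f : ℕ → M) : ∏ i ∈ H, f (ex1 H r i) = ∏ k, f (r k) := by
  rw [← Finset.prod_coe_sort H (fun i => f (ex1 H r i))]
  exact Fintype.prod_equiv H.equivFin _ _ fun i => by rw [ex1_mem]

theorem prod_all {M : Type} [CommMonoid M] {m : ℕ} (H : Finset (Fin m)) (r : Fin H.card → ℕ)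
    (f : ℕ → M) (hf : f 1 = 1) : ∏ i, f (ex1 H r i) = ∏ k, f (r k) := by
  rw [← prod_H H r f]
  symm
  refine Finset.prod_subset (Finset.subset_univ H) fun i _ hi => ?_
  rw [ex1_notMem H r i hi, hf]

theorem pf_QHH (h1 : T_QYI) : T_QHH := by
  classical
  intro m z Y g H H' hY hg
  have hL : ∀ H : Finset (Fin m), LH z Y g H = lG z Y (yH Y g H) := fun _ => rfl
  rw [hL, hL, (h1 (Fin m) z Y (yH Y g H) (yH Y g H')).1]
  by_cases hH : H = H'
  · subst hH
    rw [if_pos rfl]
    unfold qq
    symm
    have h1RS : 1 ∈ RS z Y := by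
      have : 1 ∈ (Icc 1 ⌊Y⌋₊).filter (Rgh z) := by
        rw [Finset.mem_filter, Finset.mem_Icc]
        refine ⟨⟨le_rfl, Nat.le_floor (by simpa using hY)⟩, squarefree_one, fun p hp hd => ?_⟩
        exact absurd (Nat.dvd_one.mp hd) hp.one_lt.ne'
      exact this
    refine Finset.sum_of_injOn (ex1 H) ?_ ?_ ?_ ?_
    · intro r _ r' _ hrr
      funext k
      have h2 := congrFun hrr ((H.equivFin.symm k : H) : Fin m)
      rw [ex1_mem, ex1_mem, Equiv.apply_symm_apply] at h2
      exact h2
    · intro r hr
      have hr' : r ∈ BG (Fin H.card) z Y := hr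
      unfold BG at hr'
      rw [Fintype.mem_piFinset] at hr'
      show ex1 H r ∈ BG (Fin m) z Y
      unfold BG
      rw [Fintype.mem_piFinset]
      intro i
      by_cases hi : i ∈ H
      · have := ex1_mem H r ⟨i, hi⟩
        rw [show ex1 H r i = r (H.equivFin ⟨i, hi⟩) from this]
        exact hr' _
      · rw [ex1_notMem H r i hi]
        exact h1RS
    · intro r hr hnot
      have h0 : yH Y g H r = 0 := by
        by_contra hne
        apply hnot
        unfold yH at hne
        have hc : (∀ i, r i ≠ 1 ↔ i ∈ H) := by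
          by_contra hc
          exact hne (if_neg fun h => hc h.1)
        refine ⟨fun k => r (H.equivFin.symm k : H), ?_, ?_⟩
        · have hr' : r ∈ BG (Fin m) z Y := hr
          unfold BG at hr'
          rw [Fintype.mem_piFinset] at hr'
          show _ ∈ BG (Fin H.card) z Y
          unfold BG
          rw [Fintype.mem_piFinset]
          exact fun k => hr' _
        · funext i
          by_cases hi : i ∈ H
          · have := ex1_mem H (fun k => r (H.equivFin.symm k : H)) ⟨i, hi⟩
            rw [Equiv.symm_apply_apply] at this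
            exact this
          · rw [ex1_notMem H _ i hi]
            by_contra h3
            exact hi ((hc i).mp fun h4 => h3 h4.symm)
      rw [h0, zero_mul, zero_div]
    · intro r _
      have hphi : ∏ i, (((ex1 H r i).totient : ℕ) : ℝ) = ∏ k, (((r k).totient : ℕ) : ℝ) :=
        prod_all H r (fun a => ((a.totient : ℕ) : ℝ)) (by simp)
      have hpr : ∏ i, ex1 H r i = ∏ k, r k := prod_all H r (fun a => a) rfl
      have hgp : ∏ i ∈ H, (-g (ex1 H r i)) = ∏ k, (-g (r k)) := prod_H H r (fun a => -g a)
      rw [hphi]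
      by_cases hall : ∀ k, r k ≠ 1
      · have hc : ∀ i, ex1 H r i ≠ 1 ↔ i ∈ H := by
          intro i
          constructor
          · intro h2
            by_contra h3
            exact h2 (ex1_notMem H r i h3)
          · intro h2
            rw [show ex1 H r i = r (H.equivFin ⟨i, h2⟩) from ex1_mem H r ⟨i, h2⟩]
            exact hall _
        unfold yH
        rw [hpr, hgp]
        by_cases hle : ((∏ k, r k : ℕ) : ℝ) ≤ Y
        · rw [if_pos hle, if_pos ⟨hc, hle⟩, Finset.prod_div_distrib, ← Finset.prod_mul_distrib]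
          congr 1
          refine Finset.prod_congr rfl fun k _ => ?_
          ring
        · rw [if_neg hle, if_neg (fun h => hle h.2), zero_mul, zero_div]
      · push_neg at hall
        obtain ⟨k, hk⟩ := hall
        have hl : (if ((∏ i, r i : ℕ) : ℝ) ≤ Y then
            ∏ i, g (r i) ^ 2 / ((r i).totient : ℝ) else 0) = 0 := by
          split_ifs
          · refine Finset.prod_eq_zero (Finset.mem_univ k) ?_
            rw [hk, hg.one]
            simp
          · rfl
        have hr0 : yH Y g H (ex1 H r) = 0 := by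
          unfold yH
          refine if_neg fun h => ?_
          have h3 := (h.1 ((H.equivFin.symm k : H) : Fin m)).mpr (H.equivFin.symm k).2
          rw [ex1_mem, Equiv.apply_symm_apply] at h3
          exact h3 hk
        rw [hl, hr0, zero_mul, zero_div]
  · rw [if_neg hH]
    refine Finset.sum_eq_zero fun r _ => ?_
    have h0 : yH Y g H r = 0 ∨ yH Y g H' r = 0 := by
      by_contra hne
      push_neg at hne
      obtain ⟨ha, hb⟩ := hne
      unfold yH at ha hb
      have hc : ∀ i, r i ≠ 1 ↔ i ∈ H := by
        by_contra hc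
        exact ha (if_neg fun h => hc h.1)
      have hc' : ∀ i, r i ≠ 1 ↔ i ∈ H' := by
        by_contra hc
        exact hb (if_neg fun h => hc h.1)
      exact hH (Finset.ext fun i => (hc i).symm.trans (hc' i))
    rcases h0 with h | h
    · rw [h, zero_mul, zero_div]
    · rw [h, mul_zero, zero_div]

end Pool.Agent.H49.RP
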