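import Pool.Agent.H82.RP.TB

/-!
# Board rpw_modules, row TPE: the function at a prime
-/

set_option autoImplicit false

open Finset Real ArithmeticFunction
open scoped Nat ArithmeticFunction.Moebius

namespace Pool.Agent.H49.RP

open Pool.Agent.H31.MP (RS Rgh Pz Me Om Lam1 QF1)
open Pool.Agent.H82.RP

theorem RH_insert {m y₀ a n : ℕ} {z : ℝ} {j : Fin m} (H : Finset (Fin m))
    (hq : (n + pw a j).Prime) (hz : z < ((n + pw a j : ℕ) : ℝ)) :
    RH y₀ z (ps a (insert j H)) n ↔ RH y₀ z (ps a H) n := by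
  unfold RH ps
  rw [Finset.image_insert]
  constructor
  · intro h p hp s hs
    exact h p hp s (Finset.mem_insert_of_mem hs)
  · intro h p hp s hs
    rcases Finset.mem_insert.mp hs with h1 | h1
    · subst h1
      intro hd
      have hp' : p ∈ (Icc 1 ⌊z⌋₊).filter fun p => p.Prime ∧ y₀ < p := hp
      rw [Finset.mem_filter, Finset.mem_Icc] at hp'
      rcases (Nat.dvd_prime hq).mp hd with h2 | h2
      · exact hp'.2.1.one_lt.ne' h2
      · have h3 : ((n + pw a j : ℕ) : ℝ) ≤ z := by
          have hz0 : 0 ≤ z := by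
            by_contra hneg
            rw [Nat.floor_of_nonpos (le_of_lt (not_le.mp hneg))] at hp'
            omega
          rw [← h2]
          exact (Nat.cast_le.mpr hp'.1.2).trans (Nat.floor_le hz0)
        linarith
    · exact h p hp s h1

theorem LG_rs {m a n : ℕ} {z Y : ℝ} {j : Fin m} (l : (Fin m → ℕ) → ℝ)
    (hq : (n + pw a j).Prime) (hY0 : 0 ≤ Y) (hY : Y < ((n + pw a j : ℕ) : ℝ)) :
    LG z Y (rs j l) (pw a) n = LG z Y l (pw a) n := by
  classical
  unfold LG
  refine Finset.sum_congr rfl fun d hd => ?_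
  by_cases h : ∀ i, d i ∣ n + pw a i
  · rw [if_pos h, if_pos h]
    have h1 : d j = 1 := by
      rcases (Nat.dvd_prime hq).mp (h j) with h2 | h2
      · exact h2
      · exfalso
        have h3 : d j ∈ RS z Y := by
          unfold BG at hd
          exact Fintype.mem_piFinset.mp hd j
        have h4 : d j ∈ (Icc 1 ⌊Y⌋₊).filter (Rgh z) := h3
        rw [Finset.mem_filter, Finset.mem_Icc] at h4
        have h5 : ((d j : ℕ) : ℝ) ≤ Y := (Nat.cast_le.mpr h4.1.2).trans (Nat.floor_le hY0)
        rw [h2] at h5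
        linarith
    unfold rs
    rw [if_pos h1]
  · rw [if_neg h, if_neg h]

theorem LG_LE {m K a n : ℕ} {z Y : ℝ} {g : ℕ → ℝ} {j : Fin m} (H : Finset (Fin m))
    (hq : (n + pw a j).Prime) (hY0 : 0 ≤ Y) (hY : Y < ((n + pw a j : ℕ) : ℝ)) :
    LG z Y (LE z Y g K j H) (pw a) n = LG z Y (LH z Y g H) (pw a) n +
      if H.card < K then LG z Y (LH z Y g (insert j H)) (pw a) n else 0 := by
  classical
  by_cases hK : H.card < K
  · rw [if_pos hK, ← LG_rs (LH z Y g (insert j H)) hq hY0 hY]
    unfold LG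
    rw [← Finset.sum_add_distrib]
    refine Finset.sum_congr rfl fun d _ => ?_
    unfold Pool.Agent.H82.RP.LE
    rw [if_pos hK]
    split_ifs
    · rfl
    · rw [add_zero]
  · rw [if_neg hK, add_zero]
    unfold LG
    refine Finset.sum_congr rfl fun d _ => ?_
    unfold Pool.Agent.H82.RP.LE
    rw [if_neg hK, add_zero]

theorem pf_TPE : T_TPE := by
  classical
  intro m y₀ K a n z Y g j hK hY hg hj hq hzq hYq
  have hY0 : 0 ≤ Y := by linarith
  set T' := (Ad y₀ a m).erase j with hT'
  have hjT : j ∉ T' := Finset.notMem_erase j _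
  have hins : insert j T' = Ad y₀ a m := Finset.insert_erase hj
  unfold tw HS
  rw [← hins, Finset.sum_filter, Finset.sum_filter, Finset.sum_powerset_insert hjT,
    ← Finset.sum_add_distrib]
  refine Finset.sum_congr rfl fun H hH => ?_
  have hjH : j ∉ H := fun h => hjT (Finset.mem_powerset.mp hH h)
  rw [Finset.card_insert_of_notMem hjH]
  have hR := RH_insert (y₀ := y₀) (z := z) H hq hzq
  have hLG := LG_LE (K := K) (g := g) (z := z) H hq hY0 hYq
  by_cases h1 : H.card < K
  · rw [if_pos (by omega : H.card ≤ K), if_pos (by omega : H.card + 1 ≤ K),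
      if_pos (by omega : H.card ≤ K)]
    by_cases h2 : RH y₀ z (ps a H) n
    · rw [if_pos h2, if_pos (hR.mpr h2), if_pos h2, hLG, if_pos h1]
    · rw [if_neg h2, if_neg (fun h => h2 (hR.mp h)), if_neg h2, add_zero]
  · by_cases h3 : H.card ≤ K
    · rw [if_pos h3, if_neg (by omega : ¬ H.card + 1 ≤ K), if_pos h3, add_zero, hLG, if_neg h1,
        add_zero]
    · rw [if_neg h3, if_neg (by omega : ¬ H.card + 1 ≤ K), if_neg h3, add_zero]

end Pool.Agent.H49.RP
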